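import Pool.Agent.helper90.FL.Spec

set_option autoImplicit false

namespace Pool.Agent.helper90.FL

open Finset Polynomial
open scoped Classical

lemma SCA_Cl_mono {V E : Type} {s t : E → V} {B B' : Finset E} (h : B ⊆ B') {S : Set V}
    (hS : Cl s t B' S) : Cl s t B S :=
  fun e he => hS e (h he)

lemma SCA_Lp_mono {V E : Type} {s t : E → V} {B B' : Finset E} (h : B ⊆ B') {e : E}
    (hL : Lp s t B e) : Lp s t B' e :=
  fun S hS => hL S (SCA_Cl_mono h hS)

lemma SCA_Ind_mono {V E : Type} {s t : E → V} {B I J : Finset E} (h : I ⊆ J)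
    (hJ : Ind s t B J) : Ind s t B I := by
  intro e he hL
  exact hJ e (h he) (SCA_Lp_mono
    (Finset.union_subset_union_right (Finset.erase_subset_erase e h)) hL)

lemma SCA_Cir_not_Ind {V E : Type} {s t : E → V} {B C : Finset E} (hC : Cir s t B C) :
    ¬ Ind s t B C := by
  obtain ⟨⟨e, he⟩, h1, _⟩ := hC
  intro hI
  exact hI e he (h1 e he)

lemma SCA_not_ind {V E : Type} {s t : E → V} {A B : Finset E} (hA : A.Nonempty)
    (hc : ∀ S, Cl s t B S → (cut s t A S).card ≠ 1) : ¬ Ind s t B A := by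
  obtain ⟨e, he⟩ := hA
  intro hI
  obtain ⟨S, hS0⟩ := not_forall.1 (hI e he)
  obtain ⟨hS, hne⟩ := Classical.not_imp.1 hS0
  apply hc S (SCA_Cl_mono Finset.subset_union_left hS)
  rw [Finset.card_eq_one]
  refine ⟨e, ?_⟩
  ext a
  simp only [cut, Finset.mem_filter, Finset.mem_singleton]
  constructor
  · rintro ⟨ha, hsep⟩
    by_contra hne'
    exact hsep (hS a (Finset.mem_union_right _ (Finset.mem_erase.2 ⟨hne', ha⟩)))
  · rintro rfl
    exact ⟨he, hne⟩

theorem SCA (h : MIN_stmt) : SCA_stmt := by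
  intro V E s t o ho A B hA hc
  have hAn : ¬ Ind s t B A := SCA_not_ind hA hc
  have hex : ∃ j, ¬ Ind s t B (A.filter fun a => o a < j) := by
    refine ⟨A.sup o + 1, ?_⟩
    have h1 : (A.filter fun a => o a < A.sup o + 1) = A := by
      apply Finset.filter_true_of_mem
      intro a ha
      exact Nat.lt_succ_of_le (Finset.le_sup ha)
    rw [h1]
    exact hAn
  have hspec := Nat.find_spec hex
  have hmin := fun m (hm : m < Nat.find hex) => not_not.1 (Nat.find_min hex hm)
  generalize Nat.find hex = N at hspec hmin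
  cases N with
  | zero =>
    exfalso
    apply hspec
    intro e he
    simp at he
  | succ j =>
    obtain ⟨C, hCX, hC⟩ := h V E s t B _ hspec
    have hI := hmin j (Nat.lt_succ_self j)
    have hej : ∃ e ∈ C, o e = j := by
      by_contra hno
      push Not at hno
      apply SCA_Cir_not_Ind hC
      apply SCA_Ind_mono _ hI
      intro c hcC
      have h1 := Finset.mem_filter.1 (hCX hcC)
      exact Finset.mem_filter.2 ⟨h1.1, lt_of_le_of_ne (Nat.lt_succ_iff.1 h1.2) (hno c hcC)⟩
    obtain ⟨e, he, hoe⟩ := hej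
    refine ⟨j, C, e, fun c hcC => (Finset.mem_filter.1 (hCX hcC)).1, hC, he, hoe, ?_, hI⟩
    intro c hcC hne
    have h1 := Finset.mem_filter.1 (hCX hcC)
    exact lt_of_le_of_ne (Nat.lt_succ_iff.1 h1.2) (fun h2 => hne (ho (h2.trans hoe.symm)))

end Pool.Agent.helper90.FL
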